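import Mathlib

/-!
Fibonacci and Lucas numbers as sums of two Ulam numbers: a counterexample.

`F 20 = 6765` and `L 17 = 3571` are neither Ulam numbers nor sums of two distinct Ulam numbers.
-/

namespace Pool.Agent.Results.MP_7bafff_nt.NotTwoUlam

/-- `u` is (from index 1 on) the Ulam sequence with initial values `1, 2`: `u 1 = 1`, `u 2 = 2`,
and for `n ≥ 3` the term `u n` is the least integer greater than `u (n-1)` that can be written in
exactly one way as `u i + u j` with `1 ≤ i < j < n`.  The value `u 0` plays no role. -/
def IsUlamSeq (u : ℕ → ℕ) : Prop :=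
  u 1 = 1 ∧ u 2 = 2 ∧ ∀ n, 3 ≤ n →
    IsLeast {m : ℕ | u (n - 1) < m ∧
      ∃! p : ℕ × ℕ, 1 ≤ p.1 ∧ p.1 < p.2 ∧ p.2 < n ∧ u p.1 + u p.2 = m} (u n)

/-- The Lucas numbers `2, 1, 3, 4, 7, ...`. -/
def lucas : ℕ → ℕ
  | 0 => 2
  | 1 => 1
  | n + 2 => lucas (n + 1) + lucas n

/-- `m` is a sum of at most two Ulam numbers: it is a term of the sequence, or a sum of two
distinct terms. -/
def SumOfAtMostTwo (u : ℕ → ℕ) (m : ℕ) : Prop :=
  (∃ i, 1 ≤ i ∧ u i = m) ∨ ∃ i j, 1 ≤ i ∧ i < j ∧ u i + u j = m

/-! ### Existence of the Ulam sequence -/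

noncomputable def step (f : ℕ → ℕ) (n : ℕ) : ℕ :=
  sInf {m : ℕ | f (n - 1) < m ∧
      ∃! p : ℕ × ℕ, 1 ≤ p.1 ∧ p.1 < p.2 ∧ p.2 < n ∧ f p.1 + f p.2 = m}

noncomputable def F : ℕ → ℕ → ℕ
  | 0 => fun k => k
  | n + 1 => if n + 1 < 3 then F n else Function.update (F n) (n + 1) (step (F n) (n + 1))

noncomputable def ul (n : ℕ) : ℕ := F n n

lemma F_stable (n m : ℕ) (h : n ≤ m) : F m n = F n n := by
  induction m with
  | zero => have : n = 0 := by omega
            subst this; rfl
  | succ m ih =>
    rcases Nat.lt_or_ge m n with h1 | h1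
    · have : n = m + 1 := by omega
      subst this; rfl
    · rw [F]
      split_ifs
      · exact ih h1
      · rw [Function.update_of_ne (by omega)]
        exact ih h1

lemma ul_one : ul 1 = 1 := by
  simp [ul, F]

lemma ul_two : ul 2 = 2 := by
  simp [ul, F]

/-- The set of candidates at step `n`. -/
def cand (u : ℕ → ℕ) (n : ℕ) : Set ℕ := {m : ℕ | u (n - 1) < m ∧
      ∃! p : ℕ × ℕ, 1 ≤ p.1 ∧ p.1 < p.2 ∧ p.2 < n ∧ u p.1 + u p.2 = m}

lemma cand_congr {u v : ℕ → ℕ} {n : ℕ} (hn : 1 ≤ n) (h : ∀ k, k < n → u k = v k) :
    cand u n = cand v n := by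
  ext m
  have e : ∀ p : ℕ × ℕ, (1 ≤ p.1 ∧ p.1 < p.2 ∧ p.2 < n ∧ u p.1 + u p.2 = m) ↔
      (1 ≤ p.1 ∧ p.1 < p.2 ∧ p.2 < n ∧ v p.1 + v p.2 = m) := by
    intro p
    constructor
    · rintro ⟨h1, h2, h3, h4⟩
      exact ⟨h1, h2, h3, by rw [← h p.1 (by omega), ← h p.2 h3]; exact h4⟩
    · rintro ⟨h1, h2, h3, h4⟩
      exact ⟨h1, h2, h3, by rw [h p.1 (by omega), h p.2 h3]; exact h4⟩
  simp only [cand, Set.mem_ofPred_eq, e, h (n - 1) (by omega)]

lemma ul_step (n : ℕ) (hn : 3 ≤ n) : ul n = sInf (cand ul n) := by
  obtain ⟨k, rfl⟩ : ∃ k, n = k + 1 := ⟨n - 1, by omega⟩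
  have h1 : ul (k + 1) = step (F k) (k + 1) := by
    rw [ul, F, if_neg (by omega)]
    simp
  rw [h1]
  have h2 : cand (F k) (k + 1) = cand ul (k + 1) :=
    cand_congr (by omega) (fun j hj => F_stable j k (by omega))
  rw [← h2]
  rfl

lemma strict_of_step {u : ℕ → ℕ} {N : ℕ} (h : ∀ n, 1 ≤ n → n < N → u n < u (n + 1)) :
    ∀ i j, 1 ≤ i → i < j → j ≤ N → u i < u j := by
  intro i j hi hij hj
  induction j with
  | zero => omega
  | succ j ih =>
    rcases Nat.lt_or_ge i j with h1 | h1
    · exact (ih h1 (by omega)).trans (h j (by omega) (by omega))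
    · have : i = j := by omega
      subst this
      exact h i hi (by omega)

lemma cand_nonempty {u : ℕ → ℕ} {n : ℕ} (hn : 3 ≤ n) (hpos : 0 < u 1)
    (h : ∀ i j, 1 ≤ i → i < j → j ≤ n - 1 → u i < u j) : (cand u n).Nonempty := by
  refine ⟨u (n - 2) + u (n - 1), ?_, ⟨(n - 2, n - 1), ?_, ?_⟩⟩
  · have : 0 < u (n - 2) := by
      rcases Nat.lt_or_ge 1 (n - 2) with h1 | h1
      · exact hpos.trans (h 1 (n - 2) le_rfl h1 (by omega))
      · have : n - 2 = 1 := by omega
        rw [this]; exact hpos
    omega
  · exact ⟨by show 1 ≤ n - 2; omega, by show n - 2 < n - 1; omega, by show n - 1 < n; omega, rfl⟩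
  · rintro ⟨i, j⟩ ⟨h1, h2, h3, h4⟩
    simp only at h1 h2 h3 h4
    have hj : j = n - 1 := by
      by_contra hne
      have hj1 : j < n - 1 := by omega
      have a1 : u j < u (n - 1) := h j (n - 1) (by omega) hj1 le_rfl
      have a2 : u i < u (n - 2) := by
        rcases Nat.lt_or_ge j (n - 2) with h5 | h5
        · exact (h i j h1 h2 (by omega)).trans (h j (n - 2) (by omega) h5 (by omega))
        · have : j = n - 2 := by omega
          rw [← this]; exact h i j h1 h2 (by omega)
      omega
    subst hj
    have hi : i = n - 2 := by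
      by_contra hne
      have : u i < u (n - 2) := h i (n - 2) h1 (by omega) (by omega)
      omega
    subst hi
    rfl

lemma ul_isLeast : ∀ N, ∀ n, 3 ≤ n → n ≤ N → IsLeast (cand ul n) (ul n) := by
  intro N
  induction N with
  | zero => intro n h1 h2; omega
  | succ N ih =>
    intro n h1 h2
    rcases Nat.lt_or_ge n (N + 1) with h3 | h3
    · exact ih n h1 (by omega)
    · have hnN : n = N + 1 := by omega
      subst hnN
      have hs : ∀ n, 1 ≤ n → n < N → ul n < ul (n + 1) := by
        intro k hk1 hk2
        rcases Nat.lt_or_ge k 2 with h4 | h4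
        · have : k = 1 := by omega
          subst this
          rw [ul_one, ul_two]; norm_num
        · have := (ih (k + 1) (by omega) (by omega)).1.1
          simpa using this
      have hst := strict_of_step hs
      have hne : (cand ul (N + 1)).Nonempty :=
        cand_nonempty h1 (by rw [ul_one]; norm_num) (fun i j a b c => hst i j a b (by omega))
      rw [ul_step (N + 1) h1]
      exact ⟨Nat.sInf_mem hne, fun m hm => Nat.sInf_le hm⟩

lemma isUlamSeq_ul : IsUlamSeq ul :=
  ⟨ul_one, ul_two, fun n hn => ul_isLeast n n hn le_rfl⟩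

/-! ### The set of Ulam numbers -/

section
variable {u : ℕ → ℕ} (hu : IsUlamSeq u)

/-- The set of Ulam numbers. -/
def US (u : ℕ → ℕ) (m : ℕ) : Prop := ∃ i, 1 ≤ i ∧ u i = m

include hu

lemma u_lt_succ (n : ℕ) (hn : 1 ≤ n) : u n < u (n + 1) := by
  rcases Nat.lt_or_ge n 2 with h | h
  · have : n = 1 := by omega
    subst this
    rw [hu.1, hu.2.1]; norm_num
  · have := (hu.2.2 (n + 1) (by omega)).1.1
    simpa using this

lemma u_strict {i j : ℕ} (hi : 1 ≤ i) (hij : i < j) : u i < u j :=
  strict_of_step (N := j) (fun n h1 _ => u_lt_succ hu n h1) i j hi hij le_rfl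

lemma u_ge (n : ℕ) (hn : 1 ≤ n) : n ≤ u n := by
  induction n with
  | zero => omega
  | succ n ih =>
    rcases Nat.lt_or_ge n 1 with h | h
    · have : n = 0 := by omega
      subst this
      rw [hu.1]
    · have := u_lt_succ hu n h
      have := ih h
      omega

lemma u_inj {i j : ℕ} (hi : 1 ≤ i) (hj : 1 ≤ j) (h : u i = u j) : i = j := by
  rcases lt_trichotomy i j with h1 | h1 | h1
  · have := u_strict hu hi h1; omega
  · exact h1
  · have := u_strict hu hj h1; omega

lemma u_lt_iff {i j : ℕ} (hi : 1 ≤ i) (hj : 1 ≤ j) : u i < u j ↔ i < j := by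
  constructor
  · intro h
    by_contra h1
    rcases Nat.lt_or_ge j i with h2 | h2
    · have := u_strict hu hj h2; omega
    · have : i = j := by omega
      subst this; omega
  · exact u_strict hu hi

/-- Set-level characterisation of Ulam numbers. -/
lemma US_iff (m : ℕ) (hm : 3 ≤ m) :
    US u m ↔ ∃! a : ℕ, 2 * a < m ∧ US u a ∧ US u (m - a) := by
  constructor
  · rintro ⟨n, hn, rfl⟩
    have hn3 : 3 ≤ n := by
      by_contra h
      have : n = 1 ∨ n = 2 := by omega
      rcases this with h | h
      · subst h; rw [hu.1] at hm; omega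
      · subst h; rw [hu.2.1] at hm; omega
    obtain ⟨⟨i, j⟩, ⟨h1, h2, h3, h4⟩, huniq⟩ := (hu.2.2 n hn3).1.2
    simp only at h1 h2 h3 h4
    have hij := u_strict hu h1 h2
    refine ⟨u i, ⟨by omega, ⟨i, h1, rfl⟩, ⟨j, by omega, by omega⟩⟩, ?_⟩
    rintro a ⟨ha, ⟨i', hi', rfl⟩, ⟨j', hj', hj'2⟩⟩
    have hlt : u i' < u j' := by omega
    have hij' : i' < j' := (u_lt_iff hu hi' hj').1 hlt
    have hjn : j' < n := by
      rw [← u_lt_iff hu hj' hn]
      have := u_ge hu i' hi'
      omega
    have := huniq (i', j') ⟨hi', hij', hjn, by show u i' + u j' = u n; omega⟩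
    have e : i' = i := by
      have := congrArg Prod.fst this
      simpa using this
    rw [e]
  · rintro ⟨a, ⟨h1, ⟨i, hi, rfl⟩, ⟨j, hj, hj2⟩⟩, huniq⟩
    have hex : ∃ n, 1 ≤ n ∧ m ≤ u n := ⟨m, by omega, u_ge hu m (by omega)⟩
    classical
    obtain ⟨hn1, hn2⟩ := Nat.find_spec hex
    set n := Nat.find hex with hn
    have hn3 : 3 ≤ n := by
      by_contra h
      have : n = 1 ∨ n = 2 := by omega
      rcases this with h | h
      · rw [h, hu.1] at hn2; omega
      · rw [h, hu.2.1] at hn2; omega
    have hmin : u (n - 1) < m := by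
      have := Nat.find_min hex (m := n - 1) (by omega)
      by_contra hcon
      exact this ⟨by omega, by omega⟩
    have hlt : u i < u j := by omega
    have hij : i < j := (u_lt_iff hu hi hj).1 hlt
    have hjn : j < n := by
      rw [← u_lt_iff hu hj hn1]
      have := u_ge hu i hi
      omega
    have hmem : m ∈ {m : ℕ | u (n - 1) < m ∧
      ∃! p : ℕ × ℕ, 1 ≤ p.1 ∧ p.1 < p.2 ∧ p.2 < n ∧ u p.1 + u p.2 = m} := by
      refine ⟨hmin, ⟨(i, j), ⟨hi, hij, hjn, by show u i + u j = m; omega⟩, ?_⟩⟩
      rintro ⟨i', j'⟩ ⟨a1, a2, a3, a4⟩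
      simp only at a1 a2 a3 a4
      have hs := u_strict hu a1 a2
      have := huniq (u i') ⟨by omega, ⟨i', a1, rfl⟩, ⟨j', by omega, by omega⟩⟩
      have e1 : i' = i := u_inj hu a1 hi this
      subst e1
      have e2 : j' = j := u_inj hu (by omega) hj (by omega)
      subst e2
      rfl
    have hle := (hu.2.2 n hn3).2 hmem
    exact ⟨n, hn1, by omega⟩

end

/-! ### Bit masks -/

lemma onebit (X : ℕ) : (∃! a, X.testBit a = true) ↔ X ≠ 0 ∧ (X &&& (X - 1)) = 0 := by
  rw [Nat.ne_zero_and_sub_one_eq_zero_iff_isPowerOfTwo]
  constructor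
  · rintro ⟨a, ha, huniq⟩
    refine ⟨a, ?_⟩
    apply Nat.eq_of_testBit_eq
    intro i
    rw [Nat.testBit_two_pow]
    by_cases h : a = i
    · subst h; simpa using ha
    · simp only [h, decide_false]
      by_contra hc
      have hc' : X.testBit i = true := by simpa using hc
      exact h (huniq i hc').symm
  · rintro ⟨k, rfl⟩
    refine ⟨k, ?_, ?_⟩
    · show (2 ^ k).testBit k = true
      rw [Nat.testBit_two_pow]
      simp
    · intro i hi
      rw [Nat.testBit_two_pow] at hi
      simpa using (of_decide_eq_true hi).symm

/-- The overlap mask at `m`. -/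
def ov (B R N m : ℕ) : ℕ := (B &&& (R >>> (N - m))) % 2 ^ ((m + 1) / 2)

def chk (B R N m : ℕ) : Bool :=
  Nat.testBit B m == (!(Nat.beq (ov B R N m) 0) && Nat.beq (ov B R N m &&& (ov B R N m - 1)) 0)

def chkAt (B R N m : ℕ) : Bool :=
  Nat.blt m 3 || Nat.blt N m || chk B R N m

def revAt (B R N m : ℕ) : Bool :=
  Nat.blt N m || (Nat.testBit R m == Nat.testBit B (N - m))

def allB (p : ℕ → Bool) : ℕ → ℕ → Bool
  | 0, lo => p lo
  | k + 1, lo => allB p k lo && allB p k (lo + 2 ^ k)

lemma allB_spec {p : ℕ → Bool} : ∀ (k lo : ℕ), allB p k lo = true →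
    ∀ m, lo ≤ m → m < lo + 2 ^ k → p m = true := by
  intro k
  induction k with
  | zero =>
    intro lo h m h1 h2
    have : m = lo := by simp at h2; omega
    subst this; exact h
  | succ k ih =>
    intro lo h m h1 h2
    rw [allB, Bool.and_eq_true] at h
    rcases Nat.lt_or_ge m (lo + 2 ^ k) with h3 | h3
    · exact ih lo h.1 m h1 h3
    · exact ih (lo + 2 ^ k) h.2 m h3 (by rw [pow_succ] at h2; omega)

lemma ov_testBit {B R N m a : ℕ} (hm : m ≤ N)
    (hR : ∀ k, k ≤ N → R.testBit k = B.testBit (N - k)) :
    (ov B R N m).testBit a = true ↔ 2 * a < m ∧ B.testBit a = true ∧ B.testBit (m - a) = true := by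
  rw [ov, Nat.testBit_mod_two_pow, Nat.testBit_and, Nat.testBit_shiftRight]
  by_cases h : 2 * a < m
  · have h1 : a < (m + 1) / 2 := by omega
    rw [hR (N - m + a) (by omega)]
    have h2 : N - (N - m + a) = m - a := by omega
    rw [h2]
    simp [h, h1]
  · have h1 : ¬ a < (m + 1) / 2 := by omega
    simp [h, h1]

lemma US_iff_testBit {u : ℕ → ℕ} (hu : IsUlamSeq u) {B R N : ℕ}
    (hR : ∀ k, k ≤ N → R.testBit k = B.testBit (N - k))
    (hC : ∀ m, 3 ≤ m → m ≤ N → chk B R N m = true)
    (h0 : B.testBit 0 = false) (h1 : B.testBit 1 = true) (h2 : B.testBit 2 = true) :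
    ∀ m, m ≤ N → (US u m ↔ B.testBit m = true) := by
  intro m
  induction m using Nat.strong_induction_on with
  | _ m ih =>
    intro hm
    rcases Nat.lt_or_ge m 3 with h | h
    · interval_cases m
      · rw [h0]
        constructor
        · rintro ⟨i, hi, hi2⟩
          have := u_ge hu i hi
          omega
        · intro h; exact absurd h (by simp)
      · rw [h1]
        exact ⟨fun _ => rfl, fun _ => ⟨1, le_rfl, hu.1⟩⟩
      · rw [h2]
        exact ⟨fun _ => rfl, fun _ => ⟨2, by norm_num, hu.2.1⟩⟩
    · rw [US_iff hu m h]
      have hc := hC m h hm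
      rw [chk, beq_iff_eq] at hc
      rw [hc, Bool.and_eq_true, Bool.not_eq_true', ← Bool.not_eq_true, Nat.beq_eq, Nat.beq_eq,
        ← onebit]
      have e : ∀ a, (2 * a < m ∧ US u a ∧ US u (m - a)) ↔ (ov B R N m).testBit a = true := by
        intro a
        rw [ov_testBit hm hR]
        constructor
        · rintro ⟨a1, a2, a3⟩
          have hapos : 1 ≤ a := by
            obtain ⟨i, hi, rfl⟩ := a2
            exact hi.trans (u_ge hu i hi)
          exact ⟨a1, (ih a (by omega) (by omega)).1 a2, (ih (m - a) (by omega) (by omega)).1 a3⟩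
        · rintro ⟨a1, a2, a3⟩
          have hapos : 1 ≤ a := by
            rcases Nat.eq_zero_or_pos a with h5 | h5
            · subst h5; rw [h0] at a2; exact absurd a2 (by simp)
            · exact h5
          exact ⟨a1, (ih a (by omega) (by omega)).2 a2, (ih (m - a) (by omega) (by omega)).2 a3⟩
      exact existsUnique_congr e

/-- Bit mask of the Ulam numbers up to 6765. -/
def BU : ℕ := 0x14800a000000000000000010000a0000000000040002800140000029000000000280000a00002800140400028000004005000000a40050000008000000001480000000000000050000140000400001480000000010000a4000290000000000000000000500000000005080014a0005200000240050002800000520000000000000000000a000028000000000010000a00000000000400028001400000290000000000000000000000001400000200000800050000148000520001400000000014000052000148000000000400001000280000a120029001400005000000a0000000000a0000290000a400000000000000000014000000000140000520000080000000014000052000148000500001400000000014800a0000000000040002800000000029001400005280000a0005000000240000000140000020000080000080000a00a500000024000200000000002000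140000400000480004005010000040050000000400500000000000200014000000000148000500028000005080000a00002000142400520028000000000290000a0000000800a120001480000000280000a40002900000000000000020005000000a0000090000a40a0000000000002000008000028001420005200000a40a0000000000a000000000000000290000a000000000000000280014a000028000004005000000a000001000004005004000a5005200000212050000140000020028000005200014000a000001400000200000800040000148000000001000000005280000000000000000400001000004000290000a4000000014000050000140000020001400005200000800050000000000520001400005000014000042000100000120028000004000010014a00000100140400000000024005080014200012000142400000029000005000280200010800148000029001000000000210000040000100008400029028000000200000a0000280000010002942940000008480000000200000800002002800000520028000001000014000a0000000800850050000008520021000004000090010a4000200014000050000140000420028000001080204a0005205004040040850002800109020000004020014200a50002802402020528000081204084004044a00842120422180501405295e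

/-- The reversed bit mask. -/
def RU : ℕ := 0x1ea5280a028061108121084014880800840812040000528101009005000294010a00100800000102420005000284080080802812800148100420000005001080000a0000280000a000100009420024000080000210012840000028028400400000014000a000020000005001280000050010000040000100000000484000000a50a5000200000050000140000100000005025000084000200000800002100000000020025000004a00042000100500028000025000000090a0001200010a000428009000000000080a0020000014a00200000800000500120000020001080000a0000280000a00012800000000028000400001280000a0001000000a0000280000a00000000940002500008000020000080000000000000000528000000020000000004a000008000400001000000a0000014000a000128000005001000000a00002812100000128029400080280080000200000140000028008000005000014a00050000000000000001400025000000000000000140000000001409400001280010a000500000400001000000000000140940002400001400000280010000000000000002500009400005000000004a0001214004000000140002500000000005001280090a00010000140000428000005000280004a0000000000a000100000000000280080000002800800002028008000480000080000a000100000000001000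090000002940140000400000400001000000a00000000900000028001400005280000a00250000000000500008000000000014004a0000000000a0000280004a0001280000a000000000400001280000a0000000000a000000000000000000094000250000140000000001400000280000a00250012140000500020000080000000004a0001280000a0000000000a0001280004a000028000400001000000a00000000000000000000000025000000a000500008000000000014000200000000000500001400000000000000000012800000500028009000001280014a000428000000000280000000000000000002500009400020000000004a0000080000a000028000000000000004a0000000004000002800940000028008000005000080a00050000140000500000000025000000a0005000080000000000140002000000000000000014004a000000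

set_option maxRecDepth 100000 in
lemma chk_all : allB (chkAt BU RU 6765) 13 0 = true := by decide +kernel

set_option maxRecDepth 100000 in
lemma rev_all : allB (revAt BU RU 6765) 13 0 = true := by decide +kernel

lemma not_two {u : ℕ → ℕ} (hu : IsUlamSeq u) (m : ℕ) (h3 : 3 ≤ m) (hm : m ≤ 6765)
    (hb : BU.testBit m = false) (ho : ov BU RU 6765 m = 0) : ¬ SumOfAtMostTwo u m := by
  have hR : ∀ k, k ≤ 6765 → RU.testBit k = BU.testBit (6765 - k) := by
    intro k hk
    have := allB_spec 13 0 rev_all k (by omega) (by norm_num; omega)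
    rw [revAt, Bool.or_eq_true] at this
    rcases this with h | h
    · rw [Nat.blt_eq] at h; omega
    · simpa using h
  have hC : ∀ m, 3 ≤ m → m ≤ 6765 → chk BU RU 6765 m = true := by
    intro k hk1 hk2
    have := allB_spec 13 0 chk_all k (by omega) (by norm_num; omega)
    rw [chkAt, Bool.or_eq_true, Bool.or_eq_true] at this
    rcases this with (h | h) | h
    · rw [Nat.blt_eq] at h; omega
    · rw [Nat.blt_eq] at h; omega
    · exact h
  have key := US_iff_testBit hu hR hC (by decide +kernel) (by decide +kernel) (by decide +kernel)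
  rintro (h | ⟨i, j, hi, hij, hs⟩)
  · have := (key m hm).1 h
    rw [hb] at this
    exact absurd this (by simp)
  · have hlt := u_strict hu hi hij
    have hi1 := u_ge hu i hi
    have a1 : BU.testBit (u i) = true := (key (u i) (by omega)).1 ⟨i, hi, rfl⟩
    have a2 : BU.testBit (m - u i) = true :=
      (key (m - u i) (by omega)).1 ⟨j, by omega, by omega⟩
    have := (ov_testBit (a := u i) hm hR).2 ⟨by omega, a1, a2⟩
    rw [ho] at this
    simp at this

/-- **Zeitlin's conjecture on Ulam numbers is false, for Fibonacci and for Lucas numbers.**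
The Ulam sequence exists, and the Fibonacci number `F 20 = 6765` and the Lucas number
`L 17 = 3571` are neither Ulam numbers nor sums of two distinct Ulam numbers. -/
theorem result : (∃ u, IsUlamSeq u) ∧ ∀ u, IsUlamSeq u →
    ¬ SumOfAtMostTwo u (Nat.fib 20) ∧ ¬ SumOfAtMostTwo u (lucas 17) := by
  refine ⟨⟨ul, isUlamSeq_ul⟩, fun u hu => ⟨?_, ?_⟩⟩
  · have h : Nat.fib 20 = 6765 := by decide +kernel
    rw [h]
    exact not_two hu 6765 (by norm_num) (by norm_num) (by decide +kernel) (by decide +kernel)
  · have h : lucas 17 = 3571 := by decide +kernel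
    rw [h]
    exact not_two hu 3571 (by norm_num) (by norm_num) (by decide +kernel) (by decide +kernel)

end Pool.Agent.Results.MP_7bafff_nt.NotTwoUlam
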